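import Mathlib
import Pool.Agent.Helper338.RA.Assembly

/-
Random accessible automata with exactly one final state are minimal with non-negligible
probability, for every alphabet with at least two letters.

`n + 1` is the number of states; the states are `Fin (n + 1)`, the initial state is `0`.
Complete deterministic automata are Mathlib's `DFA`.
-/

namespace Pool.Agent.Results.MP_8401d0_pr.OneFinalMinimal

open Filter Topology

set_option autoImplicit false

/-- The set of accessible complete deterministic automata over the alphabet `A` with state set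
`Fin (n + 1)`, initial state `0` and exactly one final state. -/
def OneFinal (A : Type) (n : ℕ) : Set (DFA A (Fin (n + 1))) :=
  {M | M.start = 0 ∧ (∀ q, ∃ w : List A, M.evalFrom M.start w = q) ∧ ∃ f, M.accept = {f}}

/-- No two distinct states are equivalent (accept the same words). -/
def IsMinimal {A : Type} {n : ℕ} (M : DFA A (Fin (n + 1))) : Prop :=
  ∀ p q, M.acceptsFrom p = M.acceptsFrom q → p = q

/-- The probability that a uniformly random element of `OneFinal A n` is minimal. -/
noncomputable def prob (A : Type) (n : ℕ) : ℝ :=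
  (Set.ncard {M | M ∈ OneFinal A n ∧ IsMinimal M} : ℝ) / (Set.ncard (OneFinal A n) : ℝ)

/-- the automaton with transition function `T` and final state `f`. -/
def mk {A : Type} {k n : ℕ} (e : A ≃ Fin k)
    (x : (Fin (n + 1) → Fin k → Fin (n + 1)) × Fin (n + 1)) : DFA A (Fin (n + 1)) where
  step s a := x.1 s (e a)
  start := 0
  accept := {x.2}

theorem mk_injective {A : Type} {k n : ℕ} (e : A ≃ Fin k) :
    Function.Injective (mk (n := n) e) := by
  rintro ⟨T, f⟩ ⟨T', f'⟩ h
  have h1 : (mk e (T, f)).step = (mk e (T', f')).step := by rw [h]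
  have h2 : (mk e (T, f)).accept = (mk e (T', f')).accept := by rw [h]
  have h3 : T = T' := by
    funext s a
    have := congrFun (congrFun h1 s) (e.symm a)
    simpa [mk] using this
  have h4 : f = f' := by simpa [mk] using h2
  rw [h3, h4]

theorem evalFrom_mk {A : Type} {k n : ℕ} (e : A ≃ Fin k)
    (x : (Fin (n + 1) → Fin k → Fin (n + 1)) × Fin (n + 1)) (s : Fin (n + 1)) (w : List A) :
    (mk e x).evalFrom s w = RA.run x.1 s (w.map e) := by
  induction w generalizing s with
  | nil => rfl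
  | cons a w ih =>
    rw [DFA.evalFrom_cons, ih]
    rfl

theorem acc_iff {A : Type} {k n : ℕ} (e : A ≃ Fin k)
    (x : (Fin (n + 1) → Fin k → Fin (n + 1)) × Fin (n + 1)) :
    (∀ q, ∃ w : List A, (mk e x).evalFrom (mk e x).start w = q) ↔ RA.Acc x.1 0 := by
  constructor
  · intro h q
    obtain ⟨w, hw⟩ := h q
    exact ⟨w.map e, by rw [← hw, evalFrom_mk]; rfl⟩
  · intro h q
    obtain ⟨w, hw⟩ := h q
    refine ⟨w.map e.symm, ?_⟩
    rw [evalFrom_mk]
    have : (w.map e.symm).map e = w := by simp [List.map_map]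
    rw [this]
    exact hw

theorem LE_iff {A : Type} {k n : ℕ} (e : A ≃ Fin k)
    (x : (Fin (n + 1) → Fin k → Fin (n + 1)) × Fin (n + 1)) (p q : Fin (n + 1)) :
    (mk e x).acceptsFrom p = (mk e x).acceptsFrom q ↔ RA.LE x.1 x.2 p q := by
  have key : ∀ (s : Fin (n + 1)) (w : List A),
      w ∈ (mk e x).acceptsFrom s ↔ RA.run x.1 s (w.map e) = x.2 := by
    intro s w
    rw [DFA.mem_acceptsFrom, evalFrom_mk]
    simp [mk]
  constructor
  · intro h w
    have h1 := key p (w.map e.symm)
    have h2 := key q (w.map e.symm)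
    have : (w.map e.symm).map e = w := by simp [List.map_map]
    rw [this] at h1 h2
    rw [← h1, ← h2, h]
  · intro h
    ext w
    rw [key, key]
    exact h _

theorem oneFinal_eq {A : Type} {k n : ℕ} (e : A ≃ Fin k) (P : DFA A (Fin (n + 1)) → Prop) :
    {M | M ∈ OneFinal A n ∧ P M} = mk e '' {x | RA.Acc x.1 0 ∧ P (mk e x)} := by
  ext M
  constructor
  · rintro ⟨⟨hs, ha, f, hf⟩, hP⟩
    have hM : mk e (fun s a => M.step s (e.symm a), f) = M := by
      cases M with
      | mk step start accept =>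
        simp only at hs hf
        subst hs hf
        simp [mk]
    refine ⟨(fun s a => M.step s (e.symm a), f), ⟨?_, ?_⟩, hM⟩
    · rw [← acc_iff e, hM]; exact ha
    · rw [hM]; exact hP
  · rintro ⟨x, ⟨hx, hP⟩, rfl⟩
    exact ⟨⟨rfl, (acc_iff e x).2 hx, x.2, rfl⟩, hP⟩

theorem ncard_min {A : Type} {k n : ℕ} (e : A ≃ Fin k) :
    Set.ncard {M | M ∈ OneFinal A n ∧ IsMinimal M}
      = Set.ncard {x : (Fin (n + 1) → Fin k → Fin (n + 1)) × Fin (n + 1) |
          RA.Acc x.1 0 ∧ ∀ p q, RA.LE x.1 x.2 p q → p = q} := by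
  rw [oneFinal_eq e, Set.ncard_image_of_injective _ (mk_injective e)]
  congr 1
  ext x
  simp only [Set.mem_ofPred_eq, IsMinimal, LE_iff]

theorem ncard_all {A : Type} {k n : ℕ} (e : A ≃ Fin k) :
    Set.ncard (OneFinal A n)
      = Set.ncard {x : (Fin (n + 1) → Fin k → Fin (n + 1)) × Fin (n + 1) | RA.Acc x.1 0} := by
  have h := oneFinal_eq (n := n) e (fun _ => True)
  have h1 : {M | M ∈ OneFinal A n ∧ True} = OneFinal A n := by ext; simp
  rw [h1] at h
  rw [h, Set.ncard_image_of_injective _ (mk_injective e)]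
  congr 1
  ext x
  simp

theorem prob_le_one (A : Type) [Finite A] (n : ℕ) : prob A n ≤ 1 := by
  obtain ⟨k, ⟨e⟩⟩ := Finite.exists_equiv_fin A
  unfold prob
  apply div_le_one_of_le₀ _ (by positivity)
  rw [ncard_min e, ncard_all e]
  have h : Set.ncard {x : (Fin (n + 1) → Fin k → Fin (n + 1)) × Fin (n + 1) |
          RA.Acc x.1 0 ∧ ∀ p q, RA.LE x.1 x.2 p q → p = q}
      ≤ Set.ncard {x : (Fin (n + 1) → Fin k → Fin (n + 1)) × Fin (n + 1) | RA.Acc x.1 0} :=
    Set.ncard_le_ncard (fun x (hx : _ ∧ _) => hx.1) (Set.toFinite _)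
  exact_mod_cast h

theorem prob_nonneg (A : Type) (n : ℕ) : 0 ≤ prob A n := by unfold prob; positivity

theorem prob_lower (A : Type) [Finite A] (hA : 2 ≤ Nat.card A) :
    ∃ δ : ℕ → ℝ, Tendsto δ atTop (𝓝 0) ∧
      ∀ᶠ n : ℕ in atTop, 1 - (1 / (2 * ((n:ℝ)+1)^(Nat.card A-2)) + δ n) ≤ prob A n := by
  have e := Finite.equivFin A
  obtain ⟨δ, hδ, h⟩ := RA.nonmin_ratio (Nat.card A) hA
  refine ⟨δ, hδ, ?_⟩
  filter_upwards [h] with n hn
  have hsplit : Set.ncard {x : (Fin (n + 1) → Fin (Nat.card A) → Fin (n + 1)) × Fin (n + 1) |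
        RA.Acc x.1 0}
      = Set.ncard {x : (Fin (n + 1) → Fin (Nat.card A) → Fin (n + 1)) × Fin (n + 1) |
          RA.Acc x.1 0 ∧ ∀ p q, RA.LE x.1 x.2 p q → p = q}
        + Set.ncard {x : (Fin (n + 1) → Fin (Nat.card A) → Fin (n + 1)) × Fin (n + 1) |
          RA.Acc x.1 0 ∧ ¬ ∀ p q, RA.LE x.1 x.2 p q → p = q} := by
    rw [← Set.ncard_union_eq _ (Set.toFinite _) (Set.toFinite _)]
    · congr 1
      ext x
      simp only [Set.mem_ofPred_eq, Set.mem_union]
      tauto
    · rw [Set.disjoint_left]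
      rintro x ⟨_, h1⟩ ⟨_, h2⟩
      exact h2 h1
  have hpos : (0:ℝ) < (Set.ncard {x : (Fin (n + 1) → Fin (Nat.card A) → Fin (n + 1)) × Fin (n + 1) |
        RA.Acc x.1 0} : ℝ) := by
    have h1 : Set.ncard {x : (Fin (n+1) → Fin (Nat.card A) → Fin (n+1)) × Fin (n+1) | RA.Acc x.1 0}
        = RA.accN n (Nat.card A) * (n+1) := by
      have := RA.ncard_prod_first (α := Fin (n+1) → Fin (Nat.card A) → Fin (n+1)) (β := Fin (n+1))
        {T | RA.Acc T 0}
      simpa [RA.accN] using this
    rw [h1]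
    have := RA.accN_pos n (Nat.card A) (by omega)
    positivity
  unfold prob
  rw [ncard_min e, ncard_all e, le_div_iff₀ hpos]
  have hsplit' : (Set.ncard {x : (Fin (n + 1) → Fin (Nat.card A) → Fin (n + 1)) × Fin (n + 1) |
        RA.Acc x.1 0} : ℝ)
      = (Set.ncard {x : (Fin (n + 1) → Fin (Nat.card A) → Fin (n + 1)) × Fin (n + 1) |
          RA.Acc x.1 0 ∧ ∀ p q, RA.LE x.1 x.2 p q → p = q} : ℝ)
        + (Set.ncard {x : (Fin (n + 1) → Fin (Nat.card A) → Fin (n + 1)) × Fin (n + 1) |
          RA.Acc x.1 0 ∧ ¬ ∀ p q, RA.LE x.1 x.2 p q → p = q} : ℝ) := by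
    exact_mod_cast hsplit
  linarith

/-- **Main theorem.** For every finite alphabet `A` with at least two letters let `prob A n` be the
probability that a uniformly random accessible automaton with `n + 1` states and exactly one final
state is minimal. Then `liminf prob A n > 0`; more precisely the `liminf` is at least `1/2`, and
`prob A n → 1` if `A` has at least three letters. -/
theorem result (A : Type) [Finite A] (hA : 2 ≤ Nat.card A) :
    0 < liminf (fun n => prob A n) atTop ∧
    1 / 2 ≤ liminf (fun n => prob A n) atTop ∧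
    (3 ≤ Nat.card A → Tendsto (fun n => prob A n) atTop (𝓝 1)) := by
  obtain ⟨δ, hδ, h⟩ := prob_lower A hA
  have hbdd : IsBoundedUnder (· ≤ ·) atTop (fun n => prob A n) :=
    ⟨1, Filter.eventually_map.2 (Eventually.of_forall (prob_le_one A))⟩
  have hhalf : 1 / 2 ≤ liminf (fun n => prob A n) atTop := by
    have h1 : Tendsto (fun n : ℕ => 1 - (1 / 2 + δ n)) atTop (𝓝 (1 - (1/2 + 0))) :=
      tendsto_const_nhds.sub (tendsto_const_nhds.add hδ)
    have h2 : liminf (fun n : ℕ => 1 - (1 / 2 + δ n)) atTop = 1 / 2 := by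
      rw [h1.liminf_eq]; norm_num
    rw [← h2]
    apply liminf_le_liminf
    · filter_upwards [h] with n hn
      refine le_trans ?_ hn
      have h3 : (1:ℝ) ≤ ((n:ℝ)+1)^(Nat.card A-2) := one_le_pow₀ (by
        have : (0:ℝ) ≤ n := Nat.cast_nonneg n
        linarith)
      have h4 : 1 / (2 * ((n:ℝ)+1)^(Nat.card A-2)) ≤ 1 / 2 := by
        apply one_div_le_one_div_of_le (by norm_num)
        linarith
      linarith
    · exact h1.isBoundedUnder_ge
    · exact hbdd.isCoboundedUnder_ge
  refine ⟨by linarith, hhalf, fun h3 => ?_⟩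
  have t1 : Tendsto (fun n : ℕ => 1 / (2 * ((n:ℝ)+1)^(Nat.card A-2))) atTop (𝓝 0) := by
    apply tendsto_const_nhds.div_atTop
    apply Tendsto.const_mul_atTop (by norm_num)
    apply (tendsto_pow_atTop (by omega)).comp
    exact tendsto_atTop_add_const_right _ _ tendsto_natCast_atTop_atTop
  have t2 : Tendsto (fun n : ℕ => 1 - (1 / (2 * ((n:ℝ)+1)^(Nat.card A-2)) + δ n)) atTop (𝓝 1) := by
    simpa using tendsto_const_nhds.sub (t1.add hδ)
  exact tendsto_of_tendsto_of_tendsto_of_le_of_le' t2 tendsto_const_nhds h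
    (Eventually.of_forall (prob_le_one A))

end Pool.Agent.Results.MP_8401d0_pr.OneFinalMinimal
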